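import Mathlib

namespace Pool.Agent.Results.MP_78c384_co.CocktailParty

open MeasureTheory Set

/-- `|I ∩ J|` for `I = [l, r]` and `J = [l', r']`: the length (Lebesgue measure) of the
intersection of the two closed intervals, which is `0` when it is empty. -/
noncomputable def interLen (l r l' r' : ℝ) : ℝ := (volume (Icc l r ∩ Icc l' r')).toReal

/-- Bounded tolerance graphs. -/
def IsBoundedTolerance {V : Type} (G : SimpleGraph V) : Prop :=
  ∃ l r t : V → ℝ, (∀ v, l v ≤ r v) ∧ (∀ v, 0 < t v) ∧ (∀ v, t v ≤ r v - l v) ∧
    ∀ x y, x ≠ y → (G.Adj x y ↔ min (t x) (t y) ≤ interLen (l x) (r x) (l y) (r y))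

/-- Max-tolerance graphs. -/
def IsMaxTolerance {V : Type} (G : SimpleGraph V) : Prop :=
  ∃ l r t : V → ℝ, (∀ v, l v ≤ r v) ∧ (∀ v, 0 < t v) ∧
    ∀ x y, x ≠ y → (G.Adj x y ↔ max (t x) (t y) ≤ interLen (l x) (r x) (l y) (r y))

/-- The cocktail party graph (complete multipartite graph `K_{2,2,…,2}` with `n` parts):
vertices `(i, b)` with `i < n` and `b` a bit, two of them adjacent exactly when their first
coordinates differ. -/
def cocktail (n : ℕ) : SimpleGraph (Fin n × Bool) where
  Adj x y := x.1 ≠ y.1
  symm := ⟨fun _ _ h => h.symm⟩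
  loopless := ⟨fun _ h => h rfl⟩

theorem interLen_eq (l r l' r' : ℝ) : interLen l r l' r' = max (min r r' - max l l') 0 := by
  unfold interLen
  rw [Icc_inter_Icc, Real.volume_Icc, ENNReal.toReal_ofReal']

theorem bounded (n : ℕ) : IsBoundedTolerance (cocktail n) := by
  refine ⟨fun v => -(3 * (v.1 : ℝ) + 1) - (if v.2 then 1 else 0),
    fun v => 3 * (v.1 : ℝ) + 2 - (if v.2 then 1 else 0),
    fun v => 6 * (v.1 : ℝ) + 3, ?_, ?_, ?_, ?_⟩
  · intro v
    have : (0 : ℝ) ≤ (v.1 : ℝ) := by positivity
    simp only
    split_ifs <;> linarith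
  · intro v
    positivity
  · intro v
    simp only
    split_ifs <;> linarith
  · rintro ⟨i, a⟩ ⟨j, b⟩ hxy
    rw [interLen_eq]
    have hi : (0 : ℝ) ≤ (i : ℝ) := by positivity
    have hj : (0 : ℝ) ≤ (j : ℝ) := by positivity
    simp only [cocktail]
    rcases lt_trichotomy i j with h | h | h
    · have h1 : ((i : ℕ) : ℝ) + 1 ≤ (j : ℕ) := by exact_mod_cast h
      refine ⟨fun _ => ?_, fun _ => h.ne⟩
      rw [min_eq_left (by linarith), le_max_iff]
      left
      rw [le_sub_iff_add_le]
      apply le_min
      all_goals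
        rw [← le_sub_iff_add_le']
        apply max_le
        all_goals
          cases a <;> cases b <;> simp <;> linarith
    · subst h
      refine ⟨fun hh => absurd rfl hh, fun hh => ?_⟩
      exfalso
      have hab : a ≠ b := fun h => hxy (by rw [h])
      rw [min_self] at hh
      rcases le_max_iff.1 hh with hh | hh
      · have m1 := min_le_left (3 * (i : ℝ) + 2 - (if a then 1 else 0))
          (3 * (i : ℝ) + 2 - (if b then 1 else 0))
        have m2 := min_le_right (3 * (i : ℝ) + 2 - (if a then 1 else 0))
          (3 * (i : ℝ) + 2 - (if b then 1 else 0))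
        have m3 := le_max_left (-(3 * (i : ℝ) + 1) - (if a then 1 else 0))
          (-(3 * (i : ℝ) + 1) - (if b then 1 else 0))
        have m4 := le_max_right (-(3 * (i : ℝ) + 1) - (if a then 1 else 0))
          (-(3 * (i : ℝ) + 1) - (if b then 1 else 0))
        cases a <;> cases b
        · exact hab rfl
        · simp only [Bool.false_eq_true, ↓reduceIte] at m1 m2 m3 m4 hh
          linarith
        · simp only [Bool.false_eq_true, ↓reduceIte] at m1 m2 m3 m4 hh
          linarith
        · exact hab rfl
      · linarith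
    · have h1 : ((j : ℕ) : ℝ) + 1 ≤ (i : ℕ) := by exact_mod_cast h
      refine ⟨fun _ => ?_, fun _ => h.ne'⟩
      rw [min_eq_right (by linarith), le_max_iff]
      left
      rw [le_sub_iff_add_le]
      apply le_min
      all_goals
        rw [← le_sub_iff_add_le']
        apply max_le
        all_goals
          cases a <;> cases b <;> simp <;> linarith

theorem not_max {n : ℕ} (hn : 7 ≤ n) : ¬ IsMaxTolerance (cocktail n) := by
  rintro ⟨l, r, t, hlr, ht, hG⟩
  have : Nonempty (Fin n) := ⟨⟨0, by omega⟩⟩
  -- adjacency spelled out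
  have key : ∀ x y : Fin n × Bool, x ≠ y →
      (x.1 ≠ y.1 ↔ (max (t x) (t y) ≤ min (r x) (r y) - max (l x) (l y))) := by
    intro x y hxy
    have h := hG x y hxy
    rw [interLen_eq] at h
    have hpos : 0 < max (t x) (t y) := lt_max_of_lt_left (ht x)
    constructor
    · intro h1
      have h2 := h.1 h1
      rcases le_max_iff.1 h2 with h3 | h3
      · exact h3
      · linarith
    · intro h1
      exact h.2 (le_max_of_le_left h1)
  have adj : ∀ x y : Fin n × Bool, x.1 ≠ y.1 →
      t x ≤ r x - l x ∧ t x ≤ r x - l y ∧ t x ≤ r y - l x ∧ t x ≤ r y - l y := by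
    intro x y hxy
    have h := (key x y (fun h => hxy (by rw [h]))).1 hxy
    have h1 : t x ≤ min (r x) (r y) - max (l x) (l y) := le_trans (le_max_left _ _) h
    have a1 := min_le_left (r x) (r y)
    have a2 := min_le_right (r x) (r y)
    have a3 := le_max_left (l x) (l y)
    have a4 := le_max_right (l x) (l y)
    refine ⟨?_, ?_, ?_, ?_⟩ <;> linarith
  -- the six extremal members of the maximal clique `{(i, false)}`
  obtain ⟨e1, h1⟩ := Finite.exists_max (fun i : Fin n => t (i, false))
  obtain ⟨e2, h2⟩ := Finite.exists_max (fun i : Fin n => l (i, false) + t (i, false))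
  obtain ⟨e3, h3⟩ := Finite.exists_min (fun i : Fin n => r (i, false) - t (i, false))
  obtain ⟨e4, h4⟩ := Finite.exists_min (fun i : Fin n => r (i, false))
  obtain ⟨e5, h5⟩ := Finite.exists_max (fun i : Fin n => l (i, false))
  obtain ⟨e6, h6⟩ := Finite.exists_min (fun i : Fin n => r (i, false) - l (i, false))
  obtain ⟨j, hj⟩ : ∃ j : Fin n, j ∉ ({e1, e2, e3, e4, e5, e6} : Finset (Fin n)) := by
    by_contra hcon
    push Not at hcon
    have hc : (Finset.univ : Finset (Fin n)).card ≤ 6 :=
      le_trans (Finset.card_le_card (fun x _ => hcon x)) Finset.card_le_six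
    simp at hc
    omega
  simp only [Finset.mem_insert, Finset.mem_singleton, not_or] at hj
  obtain ⟨j1, j2, j3, j4, j5, j6⟩ := hj
  have b1 := adj (e1, false) (j, true) (fun h => j1 h.symm)
  have b2 := adj (e2, false) (j, true) (fun h => j2 h.symm)
  have b3 := adj (e3, false) (j, true) (fun h => j3 h.symm)
  have c4 := adj (j, true) (e4, false) j4
  have c5 := adj (j, true) (e5, false) j5
  have c6 := adj (j, true) (e6, false) j6
  have d := adj (j, false) (e1, false) j1
  have g1 := h1 j
  have g2 := h2 j
  have g3 := h3 j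
  have g4 := h4 j
  have g5 := h5 j
  have g6 := h6 j
  have := (key (j, true) (j, false) (by simp)).2 ?_
  · exact this rfl
  · apply max_le
    all_goals
      rw [le_sub_iff_add_le]
      apply le_min
      all_goals
        rw [← le_sub_iff_add_le']
        apply max_le
        all_goals linarith

/-- Not every bounded tolerance graph is a max-tolerance graph: the cocktail party graphs are
all bounded tolerance graphs, and from seven parts on they are not max-tolerance graphs. -/
theorem result :
    (∀ n : ℕ, IsBoundedTolerance (cocktail n)) ∧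
      ∀ n : ℕ, 7 ≤ n → ¬ IsMaxTolerance (cocktail n) :=
  ⟨bounded, fun _ hn => not_max hn⟩

end Pool.Agent.Results.MP_78c384_co.CocktailParty
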